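import Pool.Agent.Helper590_Face.U.Face

/-!
# The face inequality in `ℓ^p_n` for `p` near `2`, uniformly in all dimensions

There is an absolute constant `ε > 0` such that for all dimensions `m = d + 1`, all `n` and all
`p ≠ 2` with `|p - 2| ≤ ε` every polyhedral `m`-cycle in `ℓ^p_n` satisfies the face inequality.
-/

set_option autoImplicit false

namespace Pool.Agent.Results.MP_d210aa_gt.FaceAllDims

open MeasureTheory Pool.Agent.Helper590_Face
open scoped ENNReal

theorem result : ∃ ε : ℝ, 0 < ε ∧ ∀ (n d : ℕ) (p : ℝ≥0∞) [Fact (1 ≤ p)],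
    |p.toReal - 2| ≤ ε → p.toReal ≠ 2 → ∀ P : Chain p n d, P.IsCycle → ∀ i₀ : Fin P.k,
      μH[((d + 1 : ℕ) : ℝ)] (P.face i₀).carrier ≤
        ∑ j ∈ Finset.univ.erase i₀, μH[((d + 1 : ℕ) : ℝ)] (P.face j).carrier :=
  face_universal

end Pool.Agent.Results.MP_d210aa_gt.FaceAllDims
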